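import Pool.Agent.Helper569.Spec

/-!
The essential closure of a set and small shifts out of a bounded set.
-/

set_option autoImplicit false

namespace Pool.Agent.Y288.SB

open MeasureTheory Metric Set Filter Topology
open scoped ENNReal symmDiff
open Pool.Agent.Helper569.Spec

variable {d : ℕ}

/-- the essential closure of `S`: the points all of whose balls meet `S` in positive measure -/
def essCl (S : Set (E d)) : Set (E d) := {x | ∀ ε : ℝ, 0 < ε → 0 < volume (ball x ε ∩ S)}

lemma essCl_closed (S : Set (E d)) : IsClosed (essCl S) := by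
  rw [← isOpen_compl_iff, Metric.isOpen_iff]
  intro x hx
  rw [mem_compl_iff] at hx
  unfold essCl at hx
  simp only [mem_setOf_eq, not_forall] at hx
  obtain ⟨ε, hε, hx⟩ := hx
  refine ⟨ε / 2, by positivity, fun y hy hy2 => hx ?_⟩
  refine (hy2 (ε / 2) (by positivity)).trans_le (measure_mono (inter_subset_inter_left _ ?_))
  intro z hz
  rw [mem_ball] at *
  have := dist_triangle z y x
  linarith

lemma essCl_sub (S : Set (E d)) : essCl S ⊆ closure S := by
  intro x hx
  rw [Metric.mem_closure_iff]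
  intro ε hε
  have h1 := hx ε hε
  by_contra hcon
  push Not at hcon
  have h2 : ball x ε ∩ S = ∅ := by
    rw [eq_empty_iff_forall_notMem]
    rintro y ⟨hy, hyS⟩
    have := hcon y hyS
    rw [mem_ball, dist_comm] at hy
    linarith
  rw [h2, measure_empty] at h1
  exact lt_irrefl _ h1

/-- almost every point of `S` is in its essential closure -/
lemma essCl_null (S : Set (E d)) : volume (S \ essCl S) = 0 := by
  apply measure_null_of_locally_null
  intro x hx
  have hx2 := hx.2
  unfold essCl at hx2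
  simp only [mem_setOf_eq, not_forall] at hx2
  obtain ⟨ε, hε, hx2⟩ := hx2
  refine ⟨ball x ε ∩ S, ?_, le_antisymm (not_lt.1 hx2) zero_le⟩
  rw [mem_nhdsWithin]
  exact ⟨ball x ε, isOpen_ball, mem_ball_self hε, fun y hy => ⟨hy.1, hy.2.1⟩⟩

lemma essCl_congr {S S' : Set (E d)} (h : S =ᵐ[volume] S') : essCl S = essCl S' := by
  have h1 : ∀ x : E d, ∀ ε : ℝ, volume (ball x ε ∩ S) = volume (ball x ε ∩ S') := fun x ε =>
    measure_congr ((ae_eq_refl _).inter h)
  unfold essCl
  simp only [h1]

/-- small shifts of the bounded set `Ω` leave almost every point of `Ω ∩ essCl Ωᶜ` uncovered -/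
theorem cover (Ω : Set (E d)) (hm : MeasurableSet Ω) (hb : Bornology.IsBounded Ω) (ε : ℝ)
    (hε : 0 < ε) : ∃ q : ℕ → E d, (∀ i, ‖q i‖ < ε) ∧
      volume ((Ω ∩ essCl Ωᶜ) \ ⋃ i, {x | x - q i ∉ Ω}) = 0 := by
  classical
  set q : ℕ → E d := fun i =>
    if ‖TopologicalSpace.denseSeq (E d) i‖ < ε then TopologicalSpace.denseSeq (E d) i else 0 with hq
  have hqε : ∀ i, ‖q i‖ < ε := by
    intro i
    simp only [hq]
    split_ifs with h
    · exact h
    · simpa using hε
  refine ⟨q, hqε, ?_⟩
  set Z := (Ω ∩ essCl Ωᶜ) \ ⋃ i, {x | x - q i ∉ Ω} with hZ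
  have hVm : ∀ i, MeasurableSet {x : E d | x - q i ∉ Ω} := fun i =>
    (hm.preimage (measurable_id.sub_const (q i))).compl
  have hZm : MeasurableSet Z :=
    (hm.inter (essCl_closed _).measurableSet).diff (MeasurableSet.iUnion hVm)
  -- continuity of the translations
  let f : E d → C(E d, E d) := fun s => ⟨fun x => x - s, by fun_prop⟩
  have hf : Continuous f := by
    apply ContinuousMap.continuous_of_continuous_uncurry
    show Continuous (fun p : E d × E d => p.2 - p.1)
    fun_prop
  have hfp : ∀ s, MeasurePreserving (f s) (volume : Measure (E d)) volume := fun s =>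
    measurePreserving_sub_right volume s
  have hcont : ∀ s0 : E d, Tendsto (fun s => volume ((f s ⁻¹' Ω) ∆ (f s0 ⁻¹' Ω))) (𝓝 s0) (𝓝 0) :=
    fun s0 => tendsto_measure_symmDiff_preimage_nhds_zero (hf.tendsto s0)
      (Eventually.of_forall hfp) (hfp s0) hm.nullMeasurableSet hb.measure_lt_top.ne
  have hzero : ∀ s0 ∈ ball (0 : E d) ε, volume (Z \ (f s0 ⁻¹' Ω)) = 0 := by
    intro s0 hs0
    refine le_antisymm (le_of_forall_gt fun η hη => ?_) zero_le
    have h1 : ∀ᶠ s in 𝓝 s0, volume ((f s ⁻¹' Ω) ∆ (f s0 ⁻¹' Ω)) < η :=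
      (hcont s0).eventually (gt_mem_nhds hη)
    have h2 : ∀ᶠ s in 𝓝 s0, s ∈ ball (0 : E d) ε := isOpen_ball.mem_nhds hs0
    obtain ⟨O, hO, hOo, hsO⟩ := _root_.eventually_nhds_iff.1 (h1.and h2)
    obtain ⟨i, hi⟩ := (TopologicalSpace.denseRange_denseSeq (E d)).exists_mem_open hOo ⟨s0, hsO⟩
    have h3 := hO _ hi
    have h4 : q i = TopologicalSpace.denseSeq (E d) i := by
      simp only [hq]
      rw [if_pos]
      simpa using h3.2
    rw [← h4] at h3
    refine lt_of_le_of_lt (measure_mono ?_) h3.1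
    intro x hx
    refine Or.inl ⟨?_, hx.2⟩
    have h5 := hx.1.2
    rw [mem_iUnion, not_exists] at h5
    exact not_not.1 (h5 i)
  -- Fubini
  have hall : ∀ᵐ s ∂(volume.restrict (ball (0 : E d) ε)), ∀ᵐ x ∂(volume : Measure (E d)),
      x ∈ Z → x - s ∈ Ω := by
    rw [ae_restrict_iff' measurableSet_ball]
    refine Eventually.of_forall fun s hs => ?_
    have h1 := hzero s hs
    rw [measure_eq_zero_iff_ae_notMem] at h1
    filter_upwards [h1] with x hx hxZ
    by_contra hcon
    exact hx ⟨hxZ, hcon⟩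
  have hmeas : MeasurableSet {p : E d × E d | p.2 ∈ Z → p.2 - p.1 ∈ Ω} := by
    have e : {p : E d × E d | p.2 ∈ Z → p.2 - p.1 ∈ Ω} =
        (Prod.snd ⁻¹' Z)ᶜ ∪ (fun p : E d × E d => p.2 - p.1) ⁻¹' Ω := by
      ext p
      simp only [mem_setOf_eq, mem_union, mem_compl_iff, mem_preimage]
      tauto
    rw [e]
    exact (hZm.preimage measurable_snd).compl.union (hm.preimage (measurable_snd.sub measurable_fst))
  have hall2 := (Measure.ae_ae_comm (p := fun (s x : E d) => x ∈ Z → x - s ∈ Ω) hmeas).1 hall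
  rw [measure_eq_zero_iff_ae_notMem]
  filter_upwards [hall2] with x hx hxZ
  have h1 : volume (ball x ε ∩ Ωᶜ) = 0 := by
    have hp := (volume : Measure (E d)).measurePreserving_sub_left x
    rw [← hp.measure_preimage (measurableSet_ball.inter hm.compl).nullMeasurableSet]
    rw [ae_restrict_iff' measurableSet_ball] at hx
    rw [measure_eq_zero_iff_ae_notMem]
    filter_upwards [hx] with s hs hs2
    have hs3 : x - s ∈ ball x ε := hs2.1
    rw [mem_ball, dist_eq_norm] at hs3
    have hs4 : s ∈ ball (0 : E d) ε := by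
      rw [mem_ball_zero_iff]
      have : x - s - x = -s := by abel
      rwa [this, norm_neg] at hs3
    exact hs2.2 (hs hs4 hxZ)
  have h2 := hxZ.1.2 ε hε
  rw [h1] at h2
  exact lt_irrefl _ h2

end Pool.Agent.Y288.SB
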