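import Pool.Agent.Helper569.Spec

/-!
The boundary of a bounded spectral set: energy inequality with weights.
-/

set_option autoImplicit false

namespace Pool.Agent.Y288.SB

open MeasureTheory FourierTransform Metric Set
open scoped RealInnerProductSpace ENNReal ComplexConjugate
open Pool.Agent.Helper569.Spec

variable {d : ℕ}

/-- the lower bound without a shift -/
theorem lower_one (Ω Λ : Set (E d)) (hm : MeasurableSet Ω) (hb : Bornology.IsBounded Ω)
    (h0 : 0 < volume Ω) (hs : IsSpectrum Ω Λ) (F : Finset (E d)) (hF : ∀ l ∈ F, l ∈ Λ)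
    (A : Set (E d)) (hA : MeasurableSet A) (hAΩ : A ⊆ Ω) (ξ : E d)
    (N : Set (E d)) (hNb : Bornology.IsBounded N) (hΩN : Ω ⊆ N) :
    1 * volume.real A - 3 * (volume.real A - (volume.real Ω)⁻¹ * ∑ l ∈ F, ‖hat A (l - ξ)‖ ^ 2)
      ≤ ∫ z in N, ‖T (volume.real Ω) F A ξ z‖ ^ 2 := by
  have hqc : Continuous (fun z => ‖T (volume.real Ω) F A ξ z‖ ^ 2) :=
    (lower_T_cont _ F A ξ).norm.pow 2
  have hNi : IntegrableOn (fun z => ‖T (volume.real Ω) F A ξ z‖ ^ 2) N := lower_int _ hqc N hNb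
  have hΩq := lower_orth Ω Λ hm hb h0 hs F hF A ξ 0
  simp only [add_zero] at hΩq
  have hbes : 0 ≤ volume.real A - (volume.real Ω)⁻¹ * ∑ l ∈ F, ‖hat A (l - ξ)‖ ^ 2 := by
    rw [← leak_eq Ω Λ hm hb h0 hs F hF A hA hAΩ ξ]
    exact integral_nonneg fun _ => sq_nonneg _
  have hle : ∫ z in Ω, ‖T (volume.real Ω) F A ξ z‖ ^ 2 ≤ ∫ z in N, ‖T (volume.real Ω) F A ξ z‖ ^ 2 := by
    apply setIntegral_mono_set hNi
    · exact Filter.Eventually.of_forall (fun x => sq_nonneg _)
    · exact Filter.Eventually.of_forall (fun x hx => hΩN hx)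
  rw [hΩq] at hle
  linarith

theorem main_w (Ω Λ : Set (E d)) (hm : MeasurableSet Ω) (hb : Bornology.IsBounded Ω)
    (h0 : 0 < volume Ω) (hs : IsSpectrum Ω Λ)
    (N : Set (E d)) (hNm : MeasurableSet N) (hNb : Bornology.IsBounded N)
    (n : ℕ) (A : Fin n → Set (E d)) (hA : ∀ i, MeasurableSet (A i))
    (hdisj : Pairwise (fun i j => Disjoint (A i) (A j))) (hU : ⋃ i, A i = Ω) (c : Fin n → ℝ)
    (hlow0 : ∀ i, ∀ F : Finset (E d), (∀ l ∈ F, l ∈ Λ) → ∀ ξ : E d,
      c i * volume.real (A i) -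
        3 * (volume.real (A i) - (volume.real Ω)⁻¹ * ∑ l ∈ F, ‖hat (A i) (l - ξ)‖ ^ 2)
        ≤ ∫ z in N, ‖T (volume.real Ω) F (A i) ξ z‖ ^ 2) :
    ∑ i, c i * volume.real (A i) ≤ volume.real N := by
  have hvfin : volume Ω ≠ ⊤ := hb.measure_lt_top.ne
  have hv : 0 < volume.real Ω := ENNReal.toReal_pos h0.ne' hvfin
  set v := volume.real Ω with hvdef
  have hAΩ : ∀ i, A i ⊆ Ω := fun i => by rw [← hU]; exact subset_iUnion A i
  have hAb : ∀ i, Bornology.IsBounded (A i) := fun i => hb.subset (hAΩ i)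
  set W := ∑ i, c i * volume.real (A i) with hWdef
  have hsum : ∑ i, volume.real (A i) = v := by
    rw [hvdef, ← hU, measureReal_iUnion_fintype (fun i j h => hdisj h) hA
      (fun i => (hAb i).measure_lt_top.ne)]
  -- the key inequality for each δ
  have key : ∀ δ : ℝ, 0 < δ → δ < 1 →
      W * (1 - δ) ≤ (1 + δ) * (3 * δ + volume.real N) := by
    intro δ hδ hδ1
    obtain ⟨ρ₀, hρ₀, ht0⟩ := tail Ω hm hb (δ * v) (by positivity)
    have hκ : (1 - δ) * v ≤ ∫ u in ball (0 : E d) ρ₀, ‖hat Ω u‖ ^ 2 := by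
      have := (ht0 ρ₀ le_rfl).1
      linarith
    choose r hr0 hr using fun i => tail (A i) (hA i) (hAb i) (δ / (n + 1)) (by positivity)
    obtain ⟨ρ, hρpos, hρr⟩ : ∃ ρ : ℝ, 0 < ρ ∧ ∀ i, r i ≤ ρ := by
      refine ⟨1 + ∑ i, r i, ?_, ?_⟩
      · have : 0 ≤ ∑ i, r i := Finset.sum_nonneg fun i _ => (hr0 i).le
        linarith
      · intro i
        have := Finset.single_le_sum (f := r) (fun i _ => (hr0 i).le) (Finset.mem_univ i)
        linarith
    have htau : ∑ i, ∫ u in (ball (0 : E d) ρ)ᶜ, ‖hat (A i) u‖ ^ 2 ≤ δ := by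
      calc ∑ i, ∫ u in (ball (0 : E d) ρ)ᶜ, ‖hat (A i) u‖ ^ 2
          ≤ ∑ i : Fin n, δ / (n + 1) := Finset.sum_le_sum fun i _ => (hr i ρ (hρr i)).2
        _ = n * (δ / (n + 1)) := by simp
        _ ≤ δ := by
          rw [mul_div_assoc', div_le_iff₀ (by positivity)]
          nlinarith
    obtain ⟨R₁, hR₁, hb1⟩ := ball_ratio (d := d) (ρ + ρ₀) (by positivity) δ hδ
    obtain ⟨R₂, hR₂, hb2⟩ := ball_ratio (d := d) ρ₀ hρ₀.le δ hδ
    set R := max R₁ R₂ with hRdef
    have hR : 0 < R := lt_max_of_lt_left hR₁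
    have hB1 := hb1 R (le_max_left _ _)
    have hB2 := hb2 R (le_max_right _ _)
    set B := volume.real (ball (0 : E d) R) with hBdef
    have hBpos : 0 < B := by
      rw [hBdef]
      exact ENNReal.toReal_pos (measure_ball_pos _ _ hR).ne' measure_ball_lt_top.ne
    set C := v * volume.real (ball (0 : E d) (R + ρ₀)) / (1 - δ) with hCdef
    have h1δ : 0 < 1 - δ := by linarith
    have hC : ∀ t : E d, ∀ F : Finset (E d), (∀ l ∈ F, l ∈ Λ) → (∀ l ∈ F, l ∈ ball t R) →
        (F.card : ℝ) ≤ C := by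
      intro t F hF hFt
      have := count Ω Λ hm hb h0 hs δ ρ₀ hκ t R hR hρ₀ F hF hFt
      rw [hCdef, le_div_iff₀ h1δ]
      exact this
    -- the finite set
    have hfin : (Λ ∩ ball (0 : E d) (R + ρ)).Finite := by
      by_contra hinf
      have hinf' : (Λ ∩ ball (0 : E d) (R + ρ)).Infinite := hinf
      obtain ⟨k, hk⟩ := exists_nat_gt (v * volume.real (ball (0 : E d) (R + ρ + ρ₀)) / (1 - δ))
      obtain ⟨F, hFs, hFc⟩ := hinf'.exists_subset_card_eq k
      have := count Ω Λ hm hb h0 hs δ ρ₀ hκ 0 (R + ρ) (by positivity) hρ₀ F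
        (fun l hl => (hFs hl).1) (fun l hl => (hFs hl).2)
      rw [hFc, ← le_div_iff₀ h1δ] at this
      linarith
    set F := hfin.toFinset with hFdef
    have hF : ∀ l, l ∈ F ↔ l ∈ Λ ∧ l ∈ ball (0 : E d) (R + ρ) := by
      intro l
      rw [hFdef, Set.Finite.mem_toFinset]
      rfl
    have hFΛ : ∀ l ∈ F, l ∈ Λ := fun l hl => ((hF l).1 hl).1
    have hFcard : (F.card : ℝ) * (1 - δ) ≤ v * volume.real (ball (0 : E d) (R + ρ + ρ₀)) :=
      count Ω Λ hm hb h0 hs δ ρ₀ hκ 0 (R + ρ) (by positivity) hρ₀ F hFΛ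
        (fun l hl => ((hF l).1 hl).2)
    -- upper bound
    have hup := upper Ω Λ hm hb h0 hs F hFΛ N hNm hNb n A hA hdisj hU R
    -- lower bound
    have hleak : ∀ i, ∫ ξ in ball (0 : E d) R,
        (volume.real (A i) - v⁻¹ * ∑ l ∈ F, ‖hat (A i) (l - ξ)‖ ^ 2)
        ≤ v⁻¹ * C * ∫ u in (ball (0 : E d) ρ)ᶜ, ‖hat (A i) u‖ ^ 2 := fun i =>
      leak_avg Ω Λ hm hb h0 hs R ρ hR hρpos C hC F hF (A i) (hA i) (hAΩ i)
    have hlc : ∀ i, Continuous (fun ξ : E d =>
        volume.real (A i) - v⁻¹ * ∑ l ∈ F, ‖hat (A i) (l - ξ)‖ ^ 2) := by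
      intro i
      have hc := hat_cont (A i) (hA i) (hAb i)
      fun_prop
    have hlow : ∀ i, c i * volume.real (A i) * B - 3 * ∫ ξ in ball (0 : E d) R,
        (volume.real (A i) - v⁻¹ * ∑ l ∈ F, ‖hat (A i) (l - ξ)‖ ^ 2)
        ≤ ∫ ξ in ball (0 : E d) R, ∫ z in N, ‖T v F (A i) ξ z‖ ^ 2 := by
      intro i
      have hint1 : IntegrableOn (fun ξ : E d =>
          volume.real (A i) - v⁻¹ * ∑ l ∈ F, ‖hat (A i) (l - ξ)‖ ^ 2) (ball (0 : E d) R) :=
        ((hlc i).continuousOn.integrableOn_compact (isCompact_closedBall (0 : E d) R)).mono_set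
          ball_subset_closedBall
      have hint2 : IntegrableOn (fun ξ : E d => ∫ z in N, ‖T v F (A i) ξ z‖ ^ 2)
          (ball (0 : E d) R) :=
        ((T_cont Ω F (A i) (hA i) (hAb i) N hNm hNb).continuousOn.integrableOn_compact
          (isCompact_closedBall (0 : E d) R)).mono_set ball_subset_closedBall
      have hconst : IntegrableOn (fun _ : E d => c i * volume.real (A i)) (ball (0 : E d) R) :=
        integrableOn_const measure_ball_lt_top.ne
      have e1 : c i * volume.real (A i) * B - 3 * ∫ ξ in ball (0 : E d) R,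
          (volume.real (A i) - v⁻¹ * ∑ l ∈ F, ‖hat (A i) (l - ξ)‖ ^ 2)
          = ∫ ξ in ball (0 : E d) R, (c i * volume.real (A i) -
            3 * (volume.real (A i) - v⁻¹ * ∑ l ∈ F, ‖hat (A i) (l - ξ)‖ ^ 2)) := by
        rw [integral_sub hconst (hint1.const_mul 3)]
        congr 1
        · rw [setIntegral_const, smul_eq_mul, hBdef]
          ring
        · exact (integral_const_mul _ _).symm
      rw [e1]
      refine integral_mono (hconst.sub (hint1.const_mul 3)) hint2 ?_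
      intro ξ
      exact hlow0 i F hFΛ ξ
    have hlowsum : W * B - 3 * ∑ i, ∫ ξ in ball (0 : E d) R,
        (volume.real (A i) - v⁻¹ * ∑ l ∈ F, ‖hat (A i) (l - ξ)‖ ^ 2)
        ≤ F.card * volume.real N / v := by
      refine le_trans ?_ hup
      refine le_trans (le_of_eq ?_) (Finset.sum_le_sum fun i _ => hlow i)
      rw [Finset.sum_sub_distrib, ← Finset.sum_mul, ← Finset.mul_sum, hWdef]
    have hleaksum : ∑ i, ∫ ξ in ball (0 : E d) R,
        (volume.real (A i) - v⁻¹ * ∑ l ∈ F, ‖hat (A i) (l - ξ)‖ ^ 2) ≤ v⁻¹ * C * δ := by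
      refine le_trans (Finset.sum_le_sum fun i _ => hleak i) ?_
      rw [← Finset.mul_sum]
      refine mul_le_mul_of_nonneg_left htau ?_
      rw [hCdef]
      positivity
    have hvC : v⁻¹ * C = volume.real (ball (0 : E d) (R + ρ₀)) / (1 - δ) := by
      rw [hCdef]
      field_simp
    rw [hvC] at hleaksum
    have hNn : 0 ≤ volume.real N := measureReal_nonneg
    have h3 : F.card * volume.real N / v ≤ (1 + δ) * B * volume.real N / (1 - δ) := by
      rw [div_le_div_iff₀ hv h1δ]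
      have e : (F.card : ℝ) * volume.real N * (1 - δ) = (F.card * (1 - δ)) * volume.real N := by ring
      rw [e]
      have : (F.card : ℝ) * (1 - δ) ≤ v * ((1 + δ) * B) := by
        refine hFcard.trans ?_
        refine mul_le_mul_of_nonneg_left ?_ hv.le
        rw [add_assoc]
        exact hB1
      calc (F.card * (1 - δ)) * volume.real N ≤ (v * ((1 + δ) * B)) * volume.real N :=
            mul_le_mul_of_nonneg_right this hNn
        _ = (1 + δ) * B * volume.real N * v := by ring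
    have h4 : volume.real (ball (0 : E d) (R + ρ₀)) / (1 - δ) * δ ≤ (1 + δ) * B / (1 - δ) * δ := by
      refine mul_le_mul_of_nonneg_right ?_ hδ.le
      exact div_le_div_of_nonneg_right hB2 h1δ.le
    have h5 : W * B ≤ 3 * ((1 + δ) * B / (1 - δ) * δ) + (1 + δ) * B * volume.real N / (1 - δ) := by
      linarith
    have h6 : W * B * (1 - δ) ≤ (1 + δ) * (3 * δ + volume.real N) * B := by
      have := mul_le_mul_of_nonneg_right h5 h1δ.le
      have e : (3 * ((1 + δ) * B / (1 - δ) * δ) + (1 + δ) * B * volume.real N / (1 - δ)) * (1 - δ)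
          = (1 + δ) * (3 * δ + volume.real N) * B := by
        field_simp
      rw [e] at this
      exact this
    have h7 : W * (1 - δ) * B ≤ (1 + δ) * (3 * δ + volume.real N) * B := by linarith
    exact le_of_mul_le_mul_right h7 hBpos
  -- limit δ → 0
  have hlim1 : Filter.Tendsto (fun δ : ℝ => W * (1 - δ)) (nhdsWithin 0 (Ioi 0))
      (nhds (W * (1 - 0))) := by
    refine (Continuous.tendsto ?_ 0).mono_left nhdsWithin_le_nhds
    fun_prop
  have hlim2 : Filter.Tendsto (fun δ : ℝ => (1 + δ) * (3 * δ + volume.real N)) (nhdsWithin 0 (Ioi 0))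
      (nhds ((1 + 0) * (3 * 0 + volume.real N))) := by
    refine (Continuous.tendsto ?_ 0).mono_left nhdsWithin_le_nhds
    fun_prop
  have hev : ∀ᶠ δ : ℝ in nhdsWithin 0 (Ioi 0), W * (1 - δ) ≤ (1 + δ) * (3 * δ + volume.real N) := by
    filter_upwards [Ioo_mem_nhdsGT (show (0 : ℝ) < 1 by norm_num)] with δ hδ
    exact key δ hδ.1 hδ.2
  have := le_of_tendsto_of_tendsto hlim1 hlim2 hev
  simpa using this

end Pool.Agent.Y288.SB
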