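import Pool.Agent.Y288.SB.Key
import Pool.Agent.Y288.SB.Cover

/-!
The inner part of the essential boundary of a bounded spectral set is at most as large as the outer
part.
-/

set_option autoImplicit false

namespace Pool.Agent.Y288.SB

open MeasureTheory Metric Set Filter Topology
open scoped ENNReal
open Pool.Agent.Helper569.Spec

variable {d : ℕ}

/-- the estimate on a neighbourhood, with an error -/
theorem main_eta (Ω Λ : Set (E d)) (hm : MeasurableSet Ω) (hb : Bornology.IsBounded Ω)
    (h0 : 0 < volume Ω) (hs : IsSpectrum Ω Λ) (ε : ℝ) (hε : 0 < ε) (η : ℝ) (hη : 0 < η) :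
    volume.real Ω + volume.real (Ω ∩ essCl Ωᶜ) - η ≤ volume.real (thickening ε (closure Ω)) := by
  classical
  obtain ⟨q, hqε, hq⟩ := cover Ω hm hb ε hε
  set B := Ω ∩ essCl Ωᶜ with hB
  have hBm : MeasurableSet B := hm.inter (essCl_closed _).measurableSet
  have hBb : Bornology.IsBounded B := hb.subset inter_subset_left
  set V : ℕ → Set (E d) := fun i => {x | x - q i ∉ Ω} with hV
  have hVm : ∀ i, MeasurableSet (V i) := fun i =>
    (hm.preimage (measurable_id.sub_const (q i))).compl
  -- finitely many shifts suffice up to `η`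
  obtain ⟨n, hn⟩ : ∃ n : ℕ, volume.real (B \ ⋃ i ∈ Finset.range n, V i) < η := by
    have ht : Tendsto (fun n : ℕ => volume (B \ ⋃ i ∈ Finset.range n, V i)) atTop
        (𝓝 (volume (⋂ n : ℕ, B \ ⋃ i ∈ Finset.range n, V i))) := by
      apply tendsto_measure_iInter_atTop
      · intro n
        exact (hBm.diff (Finset.measurableSet_biUnion _ fun i _ => hVm i)).nullMeasurableSet
      · intro m n hmn
        exact diff_subset_diff_right (biUnion_subset_biUnion_left
          (fun i hi => Finset.mem_range.2 ((Finset.mem_range.1 hi).trans_le hmn)))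
      · exact ⟨0, (hBb.subset diff_subset).measure_lt_top.ne⟩
    have e : ⋂ n : ℕ, B \ ⋃ i ∈ Finset.range n, V i = B \ ⋃ i, V i := by
      ext x
      simp only [mem_iInter, mem_diff, mem_iUnion, Finset.mem_range, exists_prop, not_exists,
        not_and]
      constructor
      · intro h
        exact ⟨(h 0).1, fun i => (h (i + 1)).2 i (Nat.lt_succ_self i)⟩
      · intro h n
        exact ⟨h.1, fun i _ => h.2 i⟩
    rw [e, hq] at ht
    have h1 := (ht.eventually (gt_mem_nhds (ENNReal.ofReal_pos.2 hη))).exists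
    obtain ⟨n, hn⟩ := h1
    refine ⟨n, ?_⟩
    rw [Measure.real]
    exact (ENNReal.lt_ofReal_iff_toReal_lt (hBb.subset diff_subset).measure_lt_top.ne).1 hn
  -- the pieces
  set C : Fin (n + 1) → Set (E d) := fun i => if (i : ℕ) < n then B ∩ V i else Ω with hC
  have hCm : ∀ i, MeasurableSet (C i) := by
    intro i
    simp only [hC]
    split_ifs
    · exact hBm.inter (hVm _)
    · exact hm
  have hCΩ : ∀ i, C i ⊆ Ω := by
    intro i
    simp only [hC]
    split_ifs
    · exact inter_subset_left.trans inter_subset_left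
    · exact subset_rfl
  set A := disjointed C with hA
  have hAm : ∀ i, MeasurableSet (A i) := fun i =>
    disjointedRec (fun _ j ht => MeasurableSet.diff ht (hCm j)) (hCm i)
  have hAC : ∀ i, A i ⊆ C i := fun i => disjointed_subset C i
  have hAΩ : ∀ i, A i ⊆ Ω := fun i => (hAC i).trans (hCΩ i)
  have hAb : ∀ i, Bornology.IsBounded (A i) := fun i => hb.subset (hAΩ i)
  have hdisj : Pairwise (fun i j => Disjoint (A i) (A j)) := disjoint_disjointed C
  have hU : ⋃ i, A i = Ω := by
    rw [hA, iUnion_disjointed]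
    apply Subset.antisymm
    · exact iUnion_subset hCΩ
    · intro x hx
      rw [mem_iUnion]
      refine ⟨Fin.last n, ?_⟩
      simp only [hC, Fin.val_last, lt_irrefl, if_false]
      exact hx
  -- the neighbourhood
  set N := thickening ε (closure Ω) with hNdef
  have hNb : Bornology.IsBounded N := (hb.closure).thickening
  have hNm : MeasurableSet N := isOpen_thickening.measurableSet
  have hΩN : Ω ⊆ N := subset_closure.trans (self_subset_thickening hε _)
  have hsN : ∀ i, ∀ x ∈ Ω, x + q i ∈ N := by
    intro i x hx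
    rw [hNdef, mem_thickening_iff]
    refine ⟨x, subset_closure hx, ?_⟩
    rw [dist_eq_norm]
    simpa using hqε i
  have key := main_w Ω Λ hm hb h0 hs N hNm hNb (n + 1) A hAm hdisj hU
    (fun i => if (i : ℕ) < n then 2 else 1) (by
      intro i F hF ξ
      by_cases hi : (i : ℕ) < n
      · simp only [hi, if_true]
        refine lower Ω Λ hm hb h0 hs F hF (A i) (hAm i) (hAΩ i) ξ (q i) N hNm hNb
          ((hAΩ i).trans hΩN) (hsN i) ?_
        intro x hx hxA
        have h1 := hAC i hxA
        simp only [hC, hi, if_true] at h1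
        have h2 : x + q i - q i ∉ Ω := h1.2
        rw [add_sub_cancel_right] at h2
        exact h2 hx
      · simp only [hi, if_false]
        exact lower_one Ω Λ hm hb h0 hs F hF (A i) (hAm i) (hAΩ i) ξ N hNb hΩN)
  have hsum : ∑ i, volume.real (A i) = volume.real Ω := by
    conv_rhs => rw [← hU]
    rw [measureReal_iUnion_fintype (fun i j h => hdisj h) hAm
      (fun i => (hAb i).measure_lt_top.ne)]
  have hsum2 : volume.real B - η ≤ ∑ i : Fin (n + 1), (if (i : ℕ) < n then volume.real (A i) else 0) := by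
    rw [← Finset.sum_filter]
    have h1 : B ⊆ (B \ ⋃ i ∈ Finset.range n, V i) ∪
        ⋃ i ∈ Finset.univ.filter (fun i : Fin (n + 1) => (i : ℕ) < n), A i := by
      intro x hx
      by_cases hx2 : x ∈ ⋃ i ∈ Finset.range n, V i
      · right
        simp only [mem_iUnion, Finset.mem_range, exists_prop] at hx2
        obtain ⟨j, hj, hxj⟩ := hx2
        have h2 : x ∈ ⋃ i, A i := by
          rw [hU]
          exact hx.1
        rw [mem_iUnion] at h2
        obtain ⟨i, hi⟩ := h2
        simp only [mem_iUnion, Finset.mem_filter, Finset.mem_univ, true_and, exists_prop]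
        refine ⟨i, ?_, hi⟩
        by_contra hcon
        -- `i` is the last index, and `x` lies in the earlier set `C j`
        have h3 : (⟨j, by omega⟩ : Fin (n + 1)) < i := by
          rw [Fin.lt_def]
          simp only
          omega
        have h4 : x ∈ C ⟨j, by omega⟩ := by
          simp only [hC, hj, if_true]
          exact ⟨hx, hxj⟩
        have h5 : x ∉ C ⟨j, by omega⟩ := by
          rw [hA, disjointed_apply] at hi
          intro h6
          apply hi.2
          exact (Finset.le_sup (f := C) (Finset.mem_Iio.2 h3)) h6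
        exact h5 h4
      · left
        exact ⟨hx, hx2⟩
    have hfin : volume ((B \ ⋃ i ∈ Finset.range n, V i) ∪
        ⋃ i ∈ Finset.univ.filter (fun i : Fin (n + 1) => (i : ℕ) < n), A i) ≠ ⊤ := by
      refine (hb.subset (union_subset ?_ ?_)).measure_lt_top.ne
      · exact diff_subset.trans inter_subset_left
      · exact iUnion₂_subset fun i _ => hAΩ i
    have h2 := (measureReal_mono h1 hfin).trans (measureReal_union_le _ _)
    have h3 := measureReal_biUnion_finset_le (μ := (volume : Measure (E d)))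
      (Finset.univ.filter (fun i : Fin (n + 1) => (i : ℕ) < n)) A
    linarith
  have hsum3 : ∑ i : Fin (n + 1), (if (i : ℕ) < n then (2 : ℝ) else 1) * volume.real (A i) =
      ∑ i, volume.real (A i) + ∑ i : Fin (n + 1), (if (i : ℕ) < n then volume.real (A i) else 0) := by
    rw [← Finset.sum_add_distrib]
    refine Finset.sum_congr rfl fun i _ => ?_
    split_ifs <;> ring
  rw [hsum3, hsum] at key
  linarith

/-- the estimate for the closure -/
theorem main_closure (Ω : Set (E d)) (hm : MeasurableSet Ω) (hb : Bornology.IsBounded Ω)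
    (hs : IsSpectral Ω) :
    volume Ω + volume (Ω ∩ essCl Ωᶜ) ≤ volume (closure Ω) := by
  rcases eq_or_ne (volume Ω) 0 with h0 | h0
  · have h1 : volume (Ω ∩ essCl Ωᶜ) = 0 := measure_mono_null inter_subset_left h0
    rw [h0, h1, add_zero]
    exact zero_le
  obtain ⟨Λ, hs⟩ := hs
  have hlim : Tendsto (fun ε : ℝ => volume (thickening ε (closure Ω)))
      (𝓝[>] 0) (𝓝 (volume (closure Ω))) :=
    tendsto_measure_thickening_of_isClosed (μ := (volume : Measure (E d)))
      (s := closure Ω) ⟨1, one_pos, (hb.closure.thickening).measure_lt_top.ne⟩ isClosed_closure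
  refine ge_of_tendsto hlim ?_
  filter_upwards [self_mem_nhdsWithin] with ε hε
  have hfin : volume (thickening ε (closure Ω)) ≠ ⊤ := (hb.closure.thickening).measure_lt_top.ne
  have h1 : volume.real Ω + volume.real (Ω ∩ essCl Ωᶜ) ≤ volume.real (thickening ε (closure Ω)) := by
    refine le_of_forall_pos_le_add fun η hη => ?_
    have := main_eta Ω Λ hm hb (pos_iff_ne_zero.2 h0) hs ε hε η hη
    linarith
  have hf1 : volume Ω ≠ ⊤ := hb.measure_lt_top.ne
  have hf2 : volume (Ω ∩ essCl Ωᶜ) ≠ ⊤ := (hb.subset inter_subset_left).measure_lt_top.ne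
  have h2 := ENNReal.ofReal_le_ofReal h1
  rw [ENNReal.ofReal_add measureReal_nonneg measureReal_nonneg] at h2
  simpa only [Measure.real, ENNReal.ofReal_toReal hf1, ENNReal.ofReal_toReal hf2,
    ENNReal.ofReal_toReal hfin] using h2

/-- **Main theorem**: the inner part of the essential boundary is at most as large as the outer -/
theorem main_ess (Ω : Set (E d)) (hm : MeasurableSet Ω) (hb : Bornology.IsBounded Ω)
    (hs : IsSpectral Ω) :
    volume (Ω ∩ (essCl Ω ∩ essCl Ωᶜ)) ≤ volume ((essCl Ω ∩ essCl Ωᶜ) \ Ω) := by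
  set Ω' := Ω ∩ essCl Ω with hΩ'
  have hae : Ω' =ᵐ[volume] Ω := by
    rw [hΩ']
    refine (ae_eq_set).2 ⟨?_, ?_⟩
    · have e : (Ω ∩ essCl Ω) \ Ω = ∅ := by
        ext x
        simp only [mem_diff, mem_inter_iff, mem_empty_iff_false, iff_false, not_and, not_not]
        exact fun h => h.1
      rw [e, measure_empty]
    · have : Ω \ (Ω ∩ essCl Ω) = Ω \ essCl Ω := by
        ext x; simp
      rw [this]
      exact essCl_null Ω
  have haec : Ω'ᶜ =ᵐ[volume] Ωᶜ := hae.compl
  have hm' : MeasurableSet Ω' := hm.inter (essCl_closed _).measurableSet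
  have hb' : Bornology.IsBounded Ω' := hb.subset inter_subset_left
  have hs' : IsSpectral Ω' := by
    obtain ⟨Λ, hs⟩ := hs
    refine ⟨Λ, ?_⟩
    unfold IsSpectrum at hs ⊢
    rw [Measure.restrict_congr_set hae]
    exact hs
  have h1 := main_closure Ω' hm' hb' hs'
  have h2 : closure Ω' ⊆ essCl Ω := closure_minimal inter_subset_right (essCl_closed _)
  have haec2 : essCl Ω'ᶜ = essCl Ωᶜ := essCl_congr haec
  rw [haec2] at h1
  have hv1 : volume Ω' = volume Ω := measure_congr hae
  rw [hv1] at h1
  have h3 := h1.trans (measure_mono h2)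
  -- split the essential closure
  have h4 : volume (essCl Ω) = volume (essCl Ω ∩ Ω) + volume (essCl Ω \ Ω) :=
    (measure_inter_add_diff _ hm).symm
  have h5 : volume (essCl Ω ∩ Ω) = volume Ω := by
    rw [inter_comm]
    exact measure_congr hae
  rw [h4, h5] at h3
  have h6 := (ENNReal.add_le_add_iff_left hb.measure_lt_top.ne).1 h3
  have h7 : volume (essCl Ω \ Ω) ≤ volume ((essCl Ω ∩ essCl Ωᶜ) \ Ω) := by
    have e : essCl Ω \ Ω ⊆ ((essCl Ω ∩ essCl Ωᶜ) \ Ω) ∪ (Ωᶜ \ essCl Ωᶜ) := by
      intro x hx
      by_cases h : x ∈ essCl Ωᶜ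
      · exact Or.inl ⟨⟨hx.1, h⟩, hx.2⟩
      · exact Or.inr ⟨hx.2, h⟩
    refine (measure_mono e).trans ((measure_union_le _ _).trans ?_)
    rw [essCl_null, add_zero]
  have h8 : volume (Ω ∩ (essCl Ω ∩ essCl Ωᶜ)) ≤ volume (Ω' ∩ essCl Ωᶜ) :=
    measure_mono fun x hx => ⟨⟨hx.1, hx.2.1⟩, hx.2.2⟩
  exact h8.trans (h6.trans h7)

/-- a compact spectral set has a null boundary -/
theorem compact_frontier (Ω : Set (E d)) (hc : IsCompact Ω) (hs : IsSpectral Ω) :
    volume (frontier Ω) = 0 := by
  have h1 := main_ess Ω hc.measurableSet hc.isBounded hs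
  have h2 : essCl Ω ⊆ Ω := (essCl_sub Ω).trans hc.isClosed.closure_eq.subset
  have h3 : (essCl Ω ∩ essCl Ωᶜ) \ Ω = ∅ := by
    rw [eq_empty_iff_forall_notMem]
    exact fun x hx => hx.2 (h2 hx.1.1)
  rw [h3, measure_empty] at h1
  have h4 : frontier Ω ⊆ (Ω ∩ (essCl Ω ∩ essCl Ωᶜ)) ∪ (Ω \ essCl Ω) := by
    intro x hx
    have hxΩ : x ∈ Ω := hc.isClosed.frontier_subset hx
    by_cases h : x ∈ essCl Ω
    · refine Or.inl ⟨hxΩ, h, ?_⟩
      intro ε hε
      have h5 : x ∈ closure Ωᶜ := by
        rw [frontier_eq_closure_inter_closure] at hx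
        exact hx.2
      obtain ⟨y, hy, hxy⟩ := Metric.mem_closure_iff.1 h5 ε hε
      have h6 : IsOpen (ball x ε ∩ Ωᶜ) := isOpen_ball.inter hc.isClosed.isOpen_compl
      refine h6.measure_pos volume ⟨y, ?_, hy⟩
      rw [mem_ball, dist_comm]
      exact hxy
    · exact Or.inr ⟨hxΩ, h⟩
  refine measure_mono_null h4 (measure_union_null (le_antisymm h1 zero_le) (essCl_null Ω))

/-- nowhere dense spectral sets -/
theorem nowhere_dense (Ω : Set (E d)) (hm : MeasurableSet Ω) (hb : Bornology.IsBounded Ω)
    (hn : IsNowhereDense Ω) (hs : IsSpectral Ω) : 2 * volume Ω ≤ volume (essCl Ω) := by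
  have h1 := main_ess Ω hm hb hs
  have hn' : interior (closure Ω) = ∅ := hn
  have h2 : essCl Ωᶜ = univ := by
    rw [eq_univ_iff_forall]
    intro x ε hε
    have h3 : IsOpen (ball x ε ∩ (closure Ω)ᶜ) := isOpen_ball.inter isClosed_closure.isOpen_compl
    have h4 : (ball x ε ∩ (closure Ω)ᶜ).Nonempty := by
      by_contra hcon
      rw [not_nonempty_iff_eq_empty] at hcon
      have h5 : ball x ε ⊆ closure Ω := by
        intro y hy
        by_contra hy2
        have : y ∈ ball x ε ∩ (closure Ω)ᶜ := ⟨hy, hy2⟩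
        rw [hcon] at this
        exact this
      have h6 : x ∈ interior (closure Ω) := mem_interior.2 ⟨_, h5, isOpen_ball, mem_ball_self hε⟩
      rw [hn'] at h6
      exact h6
    exact (h3.measure_pos volume h4).trans_le
      (measure_mono (inter_subset_inter_right _ (compl_subset_compl.2 subset_closure)))
  rw [h2, inter_univ] at h1
  have h4 : volume (essCl Ω) = volume (essCl Ω ∩ Ω) + volume (essCl Ω \ Ω) :=
    (measure_inter_add_diff _ hm).symm
  have h5 : volume (Ω ∩ essCl Ω) = volume Ω := by
    refine le_antisymm (measure_mono inter_subset_left) ?_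
    have h6 : Ω ⊆ (Ω ∩ essCl Ω) ∪ (Ω \ essCl Ω) := by
      intro x hx
      by_cases h : x ∈ essCl Ω
      · exact Or.inl ⟨hx, h⟩
      · exact Or.inr ⟨hx, h⟩
    refine (measure_mono h6).trans ((measure_union_le _ _).trans ?_)
    rw [essCl_null, add_zero]
  rw [h4, inter_comm, h5, two_mul]
  rw [h5] at h1
  gcongr

end Pool.Agent.Y288.SB
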